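import Pool.Agent.MP_f7a12b_co.Lib

/-!
# MP_f7a12b_co : removing an in-dominating set while keeping large minimum out-degree

For every `N` there is a finite digraph without loops in which every vertex has at least `N`
out-neighbours, and for every in-dominating set `X` other than the whole vertex set some vertex
outside `X` keeps at most one out-neighbour outside `X`.
-/

set_option autoImplicit false

namespace Pool.Agent.Results.MP_f7a12b_co.NoFunctionAtTwo

theorem result : ∀ N : ℕ, ∃ (V : Type) (_ : Fintype V) (_ : Nonempty V) (D : Digraph V),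
    (∀ v, ¬ D.Adj v v) ∧
    (∀ v, N ≤ {w : V | D.Adj v w}.ncard) ∧
    ∀ X : Set V, X ≠ Set.univ → (∀ y, y ∉ X → ∃ x ∈ X, D.Adj y x) →
      ∃ v, v ∉ X ∧ {w : V | w ∉ X ∧ D.Adj v w}.ncard ≤ 1 := by
  intro N
  refine ⟨Agent.MP_f7a12b_co.Vert (N + 1), inferInstance, inferInstance,
    ⟨Agent.MP_f7a12b_co.adj (N + 1)⟩, fun v => Agent.MP_f7a12b_co.not_adj_self _ v,
    fun v => le_trans (Nat.le_succ _) (Agent.MP_f7a12b_co.outdeg (N + 1) v), ?_⟩
  intro X hX hdom
  by_contra hcon
  refine Agent.MP_f7a12b_co.key (N + 1) (Nat.succ_pos _) X hX hdom fun v hv => ?_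
  by_contra hlt
  exact hcon ⟨v, hv, by simp only at hlt ⊢; omega⟩

end Pool.Agent.Results.MP_f7a12b_co.NoFunctionAtTwo
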